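import Pool.Agent.H465R3.Nonsep

namespace Pool.Agent.Results.MP_93c42a_an.MainCases

open Pool.Agent.H465R3

universe u v

/-- The closed unit ball of `X` has property (H) in each of the following cases: `X` admits a
bounded linear projection with infinite-dimensional range and kernel; `X` has an infinite strictly
increasing uniformly bounded sequence of commuting projections with infinite-dimensional kernels
(for example a Schauder decomposition); `X` has a Schauder basis; `X` is reflexive and
nonseparable; and, for the cases (b), (c), (d) of the problem, `X` is isomorphic to an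
infinite-dimensional Hilbert space, `X` has an unconditional basis, `X` is James's space. -/
theorem result :
    (∀ (X : Type u) [NormedAddCommGroup X] [NormedSpace ℝ X] (P : X →L[ℝ] X),
      (∀ x, P (P x) = P x) →
      ¬ FiniteDimensional ℝ (LinearMap.range (P : X →ₗ[ℝ] X)) →
      ¬ FiniteDimensional ℝ (LinearMap.ker (P : X →ₗ[ℝ] X)) → PropertyH X) ∧
    (∀ (X : Type u) [NormedAddCommGroup X] [NormedSpace ℝ X],
      HasIncreasingProjections X → PropertyH X) ∧
    (∀ (X : Type u) [NormedAddCommGroup X] [NormedSpace ℝ X] [CompleteSpace X],
      HasSchauderBasis X → PropertyH X) ∧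
    (∀ (X : Type u) [NormedAddCommGroup X] [NormedSpace ℝ X] [CompleteSpace X],
      IsReflexiveSpace X → ¬ TopologicalSpace.SeparableSpace X → PropertyH X) ∧
    (∀ (X : Type u) (H : Type v) [NormedAddCommGroup X] [NormedSpace ℝ X]
      [NormedAddCommGroup H] [InnerProductSpace ℝ H] [CompleteSpace H],
      ¬ FiniteDimensional ℝ H → Nonempty (X ≃L[ℝ] H) → PropertyH X) ∧
    (∀ (X : Type u) [NormedAddCommGroup X] [NormedSpace ℝ X] [CompleteSpace X],
      HasUnconditionalBasis X → PropertyH X) ∧
    (∀ (X : Type u) [NormedAddCommGroup X] [NormedSpace ℝ X], IsJamesSpace X → PropertyH X) := by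
  refine ⟨?_, ?_, ?_, ?_, ?_, ?_, ?_⟩
  · intro X _ _ P hP hr hk
    exact propertyH_of_projection P hP hr hk
  · intro X _ _ h
    exact propertyH_of_increasingProjections h
  · intro X _ _ _ h
    exact propertyH_of_schauder h
  · intro X _ _ _ hr hns
    exact propertyH_of_nonseparable_reflexive hr hns
  · intro X H _ _ _ _ _ hH hφ
    exact propertyH_of_hilbert hH hφ.some
  · intro X _ _ _ h
    exact propertyH_of_unconditional h
  · intro X _ _ h
    exact propertyH_of_james h

end Pool.Agent.Results.MP_93c42a_an.MainCases
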